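import Mathlib
import Pool.Agent.H.MP_2ee812_an.C

set_option autoImplicit false

namespace Pool.Agent.Results.MP_2ee812_an.Six
open Finset

noncomputable def S {n : ℕ} (a : Fin n → ℝ) : ℝ :=
  ∑ J ∈ (univ : Finset (Finset (Fin n))) with J.Nonempty, (-1) ^ (J.card + 1) * (∑ j ∈ J, a j)⁻¹

def Valid (n : ℕ) : Prop :=
  ∀ a : Fin n → ℝ, (∀ i, 0 < a i) → Real.sqrt (∑ i, (a i)⁻¹ ^ 2) ≤ S a

theorem S_eq {n : ℕ} (a : Fin n → ℝ) : S a = H.MP_2ee812_an.S a := by
  rw [S, H.MP_2ee812_an.S, powerset_univ]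
  refine sum_filter_of_ne fun J _ h => nonempty_iff_ne_empty.2 fun e => h ?_
  simp [e]

theorem step {n : ℕ} (h : Valid (n + 1)) : Valid n := fun a ha => by
  rw [S_eq]
  exact H.MP_2ee812_an.down (fun b hb => by rw [← S_eq]; exact h b hb) a ha

theorem mono {m n : ℕ} (h : m ≤ n) (hn : Valid n) : Valid m := by
  induction h with
  | refl => exact hn
  | step _ ih => exact ih (step hn)

theorem result (n : ℕ) : Valid n ↔ n ≤ 6 := by
  refine ⟨fun h => not_lt.1 fun h7 => ?_, fun h => mono h fun a ha => ?_⟩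
  · have := mono h7 h (fun _ => 1) fun _ => one_pos
    rw [S_eq] at this
    exact absurd this (not_le.2 H.MP_2ee812_an.seven)
  · rw [S_eq]
    exact H.MP_2ee812_an.six_of _ H.MP_2ee812_an.tree_ok a ha

end Pool.Agent.Results.MP_2ee812_an.Six
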